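import Pool.Agent.W734.TWB.Stms

set_option autoImplicit false

noncomputable section

namespace Pool.Agent.W52.TWB

open MeasureTheory Set Filter Metric Pool.Agent.W734.TWB
open scoped ENNReal

/-- unit cube -/
def Q1 : Set E3 := {y | ∀ k, y k ∈ Ico (0 : ℝ) 1}

theorem box_eq (n : ℕ) : box 0 1 n = Set.pi Set.univ (fun _ : Fin n => Q1) := by
  ext x
  simp only [box, Set.mem_pi, Set.mem_univ, forall_const, Q1, Set.mem_ofPred_eq]
  constructor
  · intro h i k
    have := h i k
    simpa using this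
  · intro h i k
    have := h i k
    simpa using this

theorem meas_Q1 : MeasurableSet Q1 := by
  have h : Q1 = ⋂ k : Fin 3, (fun y : E3 => y k) ⁻¹' (Ico (0 : ℝ) 1) := by
    ext y
    simp [Q1]
  rw [h]
  refine MeasurableSet.iInter fun k => ?_
  exact measurableSet_Ico.preimage (by fun_prop)

theorem vol_Q1 : volume Q1 = 1 := by
  have h : Q1 = (@WithLp.ofLp 2 (Fin 3 → ℝ)) ⁻¹' (Set.pi Set.univ (fun _ : Fin 3 => Ico (0 : ℝ) 1)) := by
    ext y
    simp [Q1, Set.mem_pi]
  rw [h, (PiLp.volume_preserving_ofLp (Fin 3)).measure_preimage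
    (MeasurableSet.univ_pi (fun _ => measurableSet_Ico)).nullMeasurableSet, volume_pi_pi]
  simp

theorem meas_box (n : ℕ) : MeasurableSet (box 0 1 n) := by
  rw [box_eq]
  exact MeasurableSet.univ_pi (fun _ => meas_Q1)

theorem vol_box (n : ℕ) : volume (box 0 1 n) = 1 := by
  rw [box_eq, volume_pi_pi]
  simp [vol_Q1]

theorem box_convex (n : ℕ) (x y : Cfg n) (hx : x ∈ box 0 1 n) (hy : y ∈ box 0 1 n) (t : ℝ)
    (ht0 : 0 ≤ t) (ht1 : t ≤ 1) : y + t • (x - y) ∈ box 0 1 n := by
  intro i k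
  have h1 := hx i k
  have h2 := hy i k
  simp only [PiLp.zero_apply, zero_add] at h1 h2 ⊢
  obtain ⟨a1, a2⟩ := h1
  obtain ⟨b1, b2⟩ := h2
  have e : (y + t • (x - y)) i k = (1 - t) * y i k + t * x i k := by
    simp only [Pi.add_apply, Pi.smul_apply, Pi.sub_apply, PiLp.add_apply, PiLp.smul_apply,
      PiLp.sub_apply, smul_eq_mul]
    ring
  rw [e]
  constructor
  · have := mul_nonneg (sub_nonneg.mpr ht1) b1
    have := mul_nonneg ht0 a1
    linarith
  · rcases eq_or_lt_of_le ht0 with h | h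
    · rw [← h]
      linarith
    · have h3 : (1 - t) * y i k ≤ (1 - t) * 1 := mul_le_mul_of_nonneg_left b2.le (sub_nonneg.mpr ht1)
      have h4 : t * x i k < t * 1 := mul_lt_mul_of_pos_left a2 h
      linarith

theorem diff_bound (n : ℕ) (x y : Cfg n) (hx : x ∈ box 0 1 n) (hy : y ∈ box 0 1 n) (i : Fin n)
    (k : Fin 3) : |(x - y) i k| ≤ 1 := by
  have h1 := hx i k
  have h2 := hy i k
  simp only [PiLp.zero_apply, zero_add] at h1 h2
  obtain ⟨a1, a2⟩ := h1
  obtain ⟨b1, b2⟩ := h2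
  have e : (x - y) i k = x i k - y i k := by
    simp only [Pi.sub_apply, PiLp.sub_apply]
  rw [e, abs_le]
  constructor <;> linarith

/-- decomposition of a vector -/
theorem decomp (n : ℕ) (h : Cfg n) :
    h = ∑ i : Fin n, ∑ k : Fin 3, (h i k) • (Pi.single i (EuclideanSpace.single k (1 : ℝ)) : Cfg n) := by
  funext j
  ext l
  simp only [Finset.sum_apply, Pi.smul_apply]
  rw [Finset.sum_eq_single j]
  · simp only [Pi.single_eq_same]
    rw [WithLp.ofLp_sum, Finset.sum_apply, Finset.sum_eq_single l]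
    · simp
    · intro b _ hb
      simp [hb.symm]
    · intro hl
      exact absurd (Finset.mem_univ l) hl
  · intro b _ hb
    simp [hb.symm]
  · intro hj
    exact absurd (Finset.mem_univ j) hj

theorem deriv_bound (n : ℕ) (F : Cfg n → ℂ) (z h : Cfg n) (hh : ∀ i k, |h i k| ≤ 1) :
    ‖fderiv ℝ F z h‖ ^ 2 ≤ (n * 3 : ℝ) * kin F z := by
  have e1 : fderiv ℝ F z h = ∑ i : Fin n, ∑ k : Fin 3,
      (h i k) • fderiv ℝ F z (Pi.single i (EuclideanSpace.single k (1 : ℝ))) := by
    conv_lhs => rw [decomp n h]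
    rw [map_sum]
    refine Finset.sum_congr rfl fun i _ => ?_
    rw [map_sum]
    refine Finset.sum_congr rfl fun k _ => ?_
    rw [map_smul]
  have e2 : ‖fderiv ℝ F z h‖ ≤ ∑ p : Fin n × Fin 3,
      ‖fderiv ℝ F z (Pi.single p.1 (EuclideanSpace.single p.2 (1 : ℝ)))‖ := by
    rw [e1, Fintype.sum_prod_type]
    refine (norm_sum_le _ _).trans (Finset.sum_le_sum fun i _ => ?_)
    refine (norm_sum_le _ _).trans (Finset.sum_le_sum fun k _ => ?_)
    rw [norm_smul, Real.norm_eq_abs]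
    calc |h i k| * ‖fderiv ℝ F z (Pi.single i (EuclideanSpace.single k (1 : ℝ)))‖
        ≤ 1 * ‖fderiv ℝ F z (Pi.single i (EuclideanSpace.single k (1 : ℝ)))‖ :=
          mul_le_mul_of_nonneg_right (hh i k) (norm_nonneg _)
      _ = _ := one_mul _
  have e3 : (∑ p : Fin n × Fin 3,
      ‖fderiv ℝ F z (Pi.single p.1 (EuclideanSpace.single p.2 (1 : ℝ)))‖) ^ 2 ≤
      ((Finset.univ : Finset (Fin n × Fin 3)).card : ℝ) * ∑ p : Fin n × Fin 3,
        ‖fderiv ℝ F z (Pi.single p.1 (EuclideanSpace.single p.2 (1 : ℝ)))‖ ^ 2 :=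
    sq_sum_le_card_mul_sum_sq
  have e4 : ∑ p : Fin n × Fin 3,
        ‖fderiv ℝ F z (Pi.single p.1 (EuclideanSpace.single p.2 (1 : ℝ)))‖ ^ 2 = kin F z := by
    rw [Fintype.sum_prod_type]
    rfl
  have e5 : ((Finset.univ : Finset (Fin n × Fin 3)).card : ℝ) = n * 3 := by
    simp
  rw [e4, e5] at e3
  refine le_trans ?_ e3
  exact pow_le_pow_left₀ (norm_nonneg _) e2 2

theorem kin_nonneg {n : ℕ} (F : Cfg n → ℂ) (z : Cfg n) : 0 ≤ kin F z := by
  unfold kin gsq
  positivity

theorem kin_cont {n : ℕ} (F : Cfg n → ℂ) (hF : ContDiff ℝ 1 F) : Continuous (kin F) := by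
  unfold kin gsq
  have h1 : Continuous (fderiv ℝ F) := hF.continuous_fderiv (by norm_num)
  refine continuous_finsetSum _ fun i _ => continuous_finsetSum _ fun k _ => ?_
  exact ((h1.clm_apply continuous_const).norm).pow 2

/-- Jensen for squares on `[0,1]` -/
theorem sq_int_le (g : ℝ → ℝ) (hg : Continuous g) :
    (∫ t in (0:ℝ)..1, g t) ^ 2 ≤ ∫ t in (0:ℝ)..1, g t ^ 2 := by
  set A := ∫ t in (0:ℝ)..1, g t with hA
  have h1 : 0 ≤ ∫ t in (0:ℝ)..1, (g t - A) ^ 2 :=
    intervalIntegral.integral_nonneg zero_le_one (fun t _ => sq_nonneg _)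
  have h2 : ∫ t in (0:ℝ)..1, (g t - A) ^ 2 = (∫ t in (0:ℝ)..1, g t ^ 2) - A ^ 2 := by
    have e : ∀ t, (g t - A) ^ 2 = g t ^ 2 - (2 * A * g t - A ^ 2) := fun t => by ring
    have i1 : IntervalIntegrable (fun t => g t ^ 2) volume 0 1 := (hg.pow 2).intervalIntegrable _ _
    have i2 : IntervalIntegrable (fun t => 2 * A * g t) volume 0 1 :=
      (continuous_const.mul hg).intervalIntegrable _ _
    have i3 : IntervalIntegrable (fun _ : ℝ => A ^ 2) volume 0 1 :=
      continuous_const.intervalIntegrable _ _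
    simp only [e]
    rw [intervalIntegral.integral_sub i1 (i2.sub i3), intervalIntegral.integral_sub i2 i3,
      intervalIntegral.integral_const_mul, intervalIntegral.integral_const, ← hA]
    simp
    ring
  linarith

theorem seg (n : ℕ) (F : Cfg n → ℂ) (hF : ContDiff ℝ 1 F) (x y : Cfg n) (hx : x ∈ box 0 1 n)
    (hy : y ∈ box 0 1 n) :
    ‖F x - F y‖ ^ 2 ≤ (n * 3 : ℝ) * ∫ t in (0:ℝ)..1, kin F (y + t • (x - y)) := by
  have hline : Continuous fun t : ℝ => y + t • (x - y) := by fun_prop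
  have hderiv : ∀ t : ℝ, HasDerivAt (fun t : ℝ => F (y + t • (x - y)))
      (fderiv ℝ F (y + t • (x - y)) (x - y)) t := by
    intro t
    have h1 : HasFDerivAt F (fderiv ℝ F (y + t • (x - y))) (y + t • (x - y)) :=
      (hF.differentiable (by norm_num) _).hasFDerivAt
    have h2 : HasDerivAt (fun t : ℝ => y + t • (x - y)) (x - y) t := by
      simpa using ((hasDerivAt_id t).smul_const (x - y)).const_add y
    exact h1.comp_hasDerivAt t h2
  have hcd : Continuous fun t : ℝ => fderiv ℝ F (y + t • (x - y)) (x - y) :=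
    ((hF.continuous_fderiv (by norm_num)).comp hline).clm_apply continuous_const
  have h3 : ∫ t in (0:ℝ)..1, fderiv ℝ F (y + t • (x - y)) (x - y) = F x - F y := by
    rw [intervalIntegral.integral_eq_sub_of_hasDerivAt (fun t _ => hderiv t)
      (hcd.intervalIntegrable _ _)]
    simp
  rw [← h3]
  have h4 : ‖∫ t in (0:ℝ)..1, fderiv ℝ F (y + t • (x - y)) (x - y)‖ ≤
      ∫ t in (0:ℝ)..1, ‖fderiv ℝ F (y + t • (x - y)) (x - y)‖ :=
    intervalIntegral.norm_integral_le_integral_norm zero_le_one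
  have h5 := sq_int_le (fun t => ‖fderiv ℝ F (y + t • (x - y)) (x - y)‖) hcd.norm
  have h6 : ∫ t in (0:ℝ)..1, ‖fderiv ℝ F (y + t • (x - y)) (x - y)‖ ^ 2 ≤
      ∫ t in (0:ℝ)..1, (n * 3 : ℝ) * kin F (y + t • (x - y)) := by
    apply intervalIntegral.integral_mono_on zero_le_one ((hcd.norm.pow 2).intervalIntegrable _ _)
      ((continuous_const.mul ((kin_cont F hF).comp hline)).intervalIntegrable _ _)
    intro t _
    exact deriv_bound n F _ _ (diff_bound n x y hx hy)
  rw [intervalIntegral.integral_const_mul] at h6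
  refine le_trans ?_ (h5.trans h6)
  exact pow_le_pow_left₀ (norm_nonneg _) h4 2

/-- scaling -/
theorem scale (n : ℕ) (G : Cfg n → ℝ≥0∞) (hG : Measurable G) (w : Cfg n) (s : ℝ)
    (hs : 1 / 2 ≤ s) :
    ∫⁻ x, G (w + s • x) ≤ ENNReal.ofReal (2 ^ (Module.finrank ℝ (Cfg n))) * ∫⁻ x, G x := by
  have hs0 : s ≠ 0 := by linarith
  have hspos : 0 < s := by linarith
  have h1 : ∫⁻ x, G (w + s • x) = ∫⁻ z, G (w + z) ∂(Measure.map (fun x : Cfg n => s • x) volume) := by
    have hm : Measurable fun z : Cfg n => G (w + z) :=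
      hG.comp (by fun_prop : Measurable fun z : Cfg n => w + z)
    have hm2 : Measurable fun x : Cfg n => s • x := by fun_prop
    rw [lintegral_map hm hm2]
  have h2 : Measure.map (fun x : Cfg n => s • x) volume =
      ENNReal.ofReal |(s ^ (Module.finrank ℝ (Cfg n)))⁻¹| • (volume : Measure (Cfg n)) :=
    Measure.map_addHaar_smul volume hs0
  rw [h1, h2, lintegral_smul_measure, lintegral_add_left_eq_self G w, smul_eq_mul]
  apply mul_le_mul_left
  apply ENNReal.ofReal_le_ofReal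
  rw [abs_of_pos (by positivity), ← inv_pow]
  apply pow_le_pow_left₀ (by positivity)
  rw [inv_le_comm₀ hspos (by norm_num)]
  linarith

/-- the kinetic energy density in the box -/
def GG {n : ℕ} (F : Cfg n → ℂ) : Cfg n → ℝ≥0∞ :=
  (box 0 1 n).indicator (fun z => ENNReal.ofReal (kin F z))

theorem GG_meas {n : ℕ} (F : Cfg n → ℂ) (hF : ContDiff ℝ 1 F) : Measurable (GG F) :=
  ((kin_cont F hF).measurable.ennreal_ofReal).indicator (meas_box n)

theorem GG_int {n : ℕ} (F : Cfg n → ℂ) :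
    ∫⁻ x, GG F x = ∫⁻ x in box 0 1 n, ENNReal.ofReal (kin F x) :=
  lintegral_indicator (meas_box n) _

theorem seg_l (n : ℕ) (F : Cfg n → ℂ) (hF : ContDiff ℝ 1 F) (x y : Cfg n) (hx : x ∈ box 0 1 n)
    (hy : y ∈ box 0 1 n) :
    ENNReal.ofReal (‖F x - F y‖ ^ 2) ≤ ENNReal.ofReal (n * 3 : ℝ) *
      ∫⁻ t in Ioc (0:ℝ) 1, GG F (y + t • (x - y)) := by
  have h1 := ENNReal.ofReal_le_ofReal (seg n F hF x y hx hy)
  rw [ENNReal.ofReal_mul (by positivity)] at h1
  refine h1.trans (mul_le_mul_right ?_ _)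
  have hline : Continuous fun t : ℝ => y + t • (x - y) := by fun_prop
  have hc : Continuous fun t : ℝ => kin F (y + t • (x - y)) := (kin_cont F hF).comp hline
  rw [intervalIntegral.integral_of_le zero_le_one,
    ofReal_integral_eq_lintegral_ofReal (hc.integrableOn_Icc.mono_set Ioc_subset_Icc_self)
      (Eventually.of_forall fun t => kin_nonneg F _)]
  apply le_of_eq
  apply setLIntegral_congr_fun measurableSet_Ioc
  intro t ht
  have hb := box_convex n x y hx hy t ht.1.le ht.2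
  show ENNReal.ofReal (kin F (y + t • (x - y))) = GG F (y + t • (x - y))
  unfold GG
  rw [indicator_of_mem hb]

theorem Jt (n : ℕ) (F : Cfg n → ℂ) (hF : ContDiff ℝ 1 F) (t : ℝ) (ht : t ∈ Ioc (0:ℝ) 1) :
    ∫⁻ x in box 0 1 n, ∫⁻ y in box 0 1 n, GG F (y + t • (x - y)) ≤
      ENNReal.ofReal (2 ^ (Module.finrank ℝ (Cfg n))) *
        ∫⁻ x in box 0 1 n, ENNReal.ofReal (kin F x) := by
  rw [← GG_int]
  set K := ENNReal.ofReal (2 ^ (Module.finrank ℝ (Cfg n))) * ∫⁻ x, GG F x with hK
  have hone : ∫⁻ _ in box 0 1 n, K = K := by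
    rw [setLIntegral_const, vol_box, mul_one]
  rcases le_total (1 / 2) t with h | h
  · have hmeas : Measurable (fun p : Cfg n × Cfg n => GG F (p.2 + t • (p.1 - p.2))) :=
      (GG_meas F hF).comp (by fun_prop)
    rw [lintegral_lintegral_swap hmeas.aemeasurable]
    rw [← hone]
    apply lintegral_mono
    intro y
    show ∫⁻ x in box 0 1 n, GG F (y + t • (x - y)) ≤ K
    have e : ∀ x : Cfg n, y + t • (x - y) = (y - t • y) + t • x := by
      intro x
      rw [smul_sub]
      abel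
    simp only [e]
    exact (setLIntegral_le_lintegral _ _).trans (scale n (GG F) (GG_meas F hF) (y - t • y) t h)
  · rw [← hone]
    apply lintegral_mono
    intro x
    show ∫⁻ y in box 0 1 n, GG F (y + t • (x - y)) ≤ K
    have e : ∀ y : Cfg n, y + t • (x - y) = t • x + (1 - t) • y := by
      intro y
      rw [smul_sub, sub_smul, one_smul]
      abel
    simp only [e]
    exact (setLIntegral_le_lintegral _ _).trans
      (scale n (GG F) (GG_meas F hF) (t • x) (1 - t) (by linarith))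

theorem double (n : ℕ) (F : Cfg n → ℂ) (hF : ContDiff ℝ 1 F) :
    ∫⁻ x in box 0 1 n, ∫⁻ y in box 0 1 n, ENNReal.ofReal (‖F x - F y‖ ^ 2) ≤
      ENNReal.ofReal (n * 3 : ℝ) * (ENNReal.ofReal (2 ^ (Module.finrank ℝ (Cfg n))) *
        ∫⁻ x in box 0 1 n, ENNReal.ofReal (kin F x)) := by
  have hm3 : Measurable (fun p : Cfg n × Cfg n × ℝ => GG F (p.2.1 + p.2.2 • (p.1 - p.2.1))) :=
    (GG_meas F hF).comp (by fun_prop)
  have step1 : ∫⁻ x in box 0 1 n, ∫⁻ y in box 0 1 n, ENNReal.ofReal (‖F x - F y‖ ^ 2) ≤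
      ∫⁻ x in box 0 1 n, ∫⁻ y in box 0 1 n, ENNReal.ofReal (n * 3 : ℝ) *
        ∫⁻ t in Ioc (0:ℝ) 1, GG F (y + t • (x - y)) := by
    apply setLIntegral_mono' (meas_box n)
    intro x hx
    apply setLIntegral_mono' (meas_box n)
    intro y hy
    exact seg_l n F hF x y hx hy
  refine step1.trans ?_
  have hmt : ∀ x : Cfg n, Measurable fun y : Cfg n => ∫⁻ t in Ioc (0:ℝ) 1, GG F (y + t • (x - y)) := by
    intro x
    apply Measurable.lintegral_prod_right' (f := fun p : Cfg n × ℝ => GG F (p.1 + p.2 • (x - p.1)))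
    exact (GG_meas F hF).comp (by fun_prop)
  have hmx : Measurable fun x : Cfg n => ∫⁻ y in box 0 1 n, ∫⁻ t in Ioc (0:ℝ) 1,
      GG F (y + t • (x - y)) := by
    apply Measurable.lintegral_prod_right' (f := fun p : Cfg n × Cfg n => ∫⁻ t in Ioc (0:ℝ) 1,
      GG F (p.2 + t • (p.1 - p.2)))
    apply Measurable.lintegral_prod_right' (f := fun p : (Cfg n × Cfg n) × ℝ =>
      GG F (p.1.2 + p.2 • (p.1.1 - p.1.2)))
    exact (GG_meas F hF).comp (by fun_prop)
  have step2 : ∫⁻ x in box 0 1 n, ∫⁻ y in box 0 1 n, ENNReal.ofReal (n * 3 : ℝ) *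
        ∫⁻ t in Ioc (0:ℝ) 1, GG F (y + t • (x - y)) = ENNReal.ofReal (n * 3 : ℝ) *
      ∫⁻ x in box 0 1 n, ∫⁻ y in box 0 1 n, ∫⁻ t in Ioc (0:ℝ) 1, GG F (y + t • (x - y)) := by
    rw [← lintegral_const_mul _ hmx]
    apply lintegral_congr
    intro x
    rw [lintegral_const_mul _ (hmt x)]
  rw [step2]
  apply mul_le_mul_right
  have step3 : ∫⁻ x in box 0 1 n, ∫⁻ y in box 0 1 n, ∫⁻ t in Ioc (0:ℝ) 1, GG F (y + t • (x - y)) =
      ∫⁻ t in Ioc (0:ℝ) 1, ∫⁻ x in box 0 1 n, ∫⁻ y in box 0 1 n, GG F (y + t • (x - y)) := by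
    have h1 : ∀ x : Cfg n, ∫⁻ y in box 0 1 n, ∫⁻ t in Ioc (0:ℝ) 1, GG F (y + t • (x - y)) =
        ∫⁻ t in Ioc (0:ℝ) 1, ∫⁻ y in box 0 1 n, GG F (y + t • (x - y)) := by
      intro x
      have hm : Measurable (fun p : Cfg n × ℝ => GG F (p.1 + p.2 • (x - p.1))) :=
        (GG_meas F hF).comp (by fun_prop)
      exact lintegral_lintegral_swap hm.aemeasurable
    simp only [h1]
    have hm : Measurable (fun p : Cfg n × ℝ => ∫⁻ y in box 0 1 n, GG F (y + p.2 • (p.1 - y))) := by
      apply Measurable.lintegral_prod_right' (f := fun q : (Cfg n × ℝ) × Cfg n =>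
        GG F (q.2 + q.1.2 • (q.1.1 - q.2)))
      exact (GG_meas F hF).comp (by fun_prop)
    exact lintegral_lintegral_swap hm.aemeasurable
  rw [step3]
  have step4 : ∫⁻ t in Ioc (0:ℝ) 1, ∫⁻ x in box 0 1 n, ∫⁻ y in box 0 1 n, GG F (y + t • (x - y)) ≤
      ∫⁻ _ in Ioc (0:ℝ) 1, ENNReal.ofReal (2 ^ (Module.finrank ℝ (Cfg n))) *
        ∫⁻ x in box 0 1 n, ENNReal.ofReal (kin F x) := by
    apply setLIntegral_mono' measurableSet_Ioc
    intro t ht
    exact Jt n F hF t ht
  refine step4.trans ?_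
  rw [setLIntegral_const, Real.volume_Ioc]
  simp

theorem box_bdd (n : ℕ) : Bornology.IsBounded (box 0 1 n) := by
  rw [isBounded_iff_forall_norm_le]
  refine ⟨2, fun x hx => ?_⟩
  rw [pi_norm_le_iff_of_nonneg (by norm_num)]
  intro i
  rw [EuclideanSpace.norm_eq]
  apply Real.sqrt_le_iff.mpr
  refine ⟨by norm_num, ?_⟩
  have h : ∀ k : Fin 3, ‖x i k‖ ^ 2 ≤ 1 := by
    intro k
    have h1 := hx i k
    simp only [PiLp.zero_apply, zero_add] at h1
    rw [Real.norm_eq_abs, sq_abs]
    have h2 : 0 ≤ x i k := h1.1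
    have h3 : x i k ≤ 1 := h1.2.le
    nlinarith
  calc ∑ k : Fin 3, ‖x i k‖ ^ 2 ≤ ∑ _ : Fin 3, (1 : ℝ) := Finset.sum_le_sum fun k _ => h k
    _ ≤ 2 ^ 2 := by simp; norm_num

theorem integ {n : ℕ} {G : Type} [NormedAddCommGroup G] (g : Cfg n → G) (hg : Continuous g) :
    Integrable g (volume.restrict (box 0 1 n)) := by
  have hK : IsCompact (closure (box 0 1 n)) := (box_bdd n).isCompact_closure
  exact (hg.continuousOn.integrableOn_compact hK).mono_set subset_closure

theorem jens {n : ℕ} (g : Cfg n → ℝ) (hg : Continuous g) :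
    (∫ y in box 0 1 n, g y) ^ 2 ≤ ∫ y in box 0 1 n, g y ^ 2 := by
  set A := ∫ y in box 0 1 n, g y with hA
  have h1 : 0 ≤ ∫ y in box 0 1 n, (g y - A) ^ 2 := integral_nonneg (fun t => sq_nonneg _)
  have i1 : Integrable (fun y => g y ^ 2) (volume.restrict (box 0 1 n)) := integ _ (hg.pow 2)
  have i2 : Integrable (fun y => 2 * A * g y) (volume.restrict (box 0 1 n)) :=
    integ _ (continuous_const.mul hg)
  have i3 : Integrable (fun _ : Cfg n => A ^ 2) (volume.restrict (box 0 1 n)) :=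
    integ _ continuous_const
  have h2 : ∫ y in box 0 1 n, (g y - A) ^ 2 = (∫ y in box 0 1 n, g y ^ 2) - A ^ 2 := by
    have e : ∀ t, (g t - A) ^ 2 = g t ^ 2 - (2 * A * g t - A ^ 2) := fun t => by ring
    simp only [e]
    have i23 : Integrable (fun y => 2 * A * g y - A ^ 2) (volume.restrict (box 0 1 n)) := i2.sub i3
    rw [integral_sub i1 i23, integral_sub i2 i3, integral_const_mul, ← hA,
      setIntegral_const]
    have hv : (volume : Measure (Cfg n)).real (box 0 1 n) = 1 := by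
      unfold Measure.real
      rw [vol_box]
      simp
    rw [hv]
    simp
    ring
  linarith

theorem point (n : ℕ) (F : Cfg n → ℂ) (hF : ContDiff ℝ 1 F) (x : Cfg n) :
    ENNReal.ofReal (‖F x - ∫ y in box 0 1 n, F y‖ ^ 2) ≤
      ∫⁻ y in box 0 1 n, ENNReal.ofReal (‖F x - F y‖ ^ 2) := by
  have hc : Continuous F := hF.continuous
  have hcx : Continuous fun y => F x - F y := continuous_const.sub hc
  have hv : (volume : Measure (Cfg n)).real (box 0 1 n) = 1 := by
    unfold Measure.real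
    rw [vol_box]
    simp
  have e1 : F x - ∫ y in box 0 1 n, F y = ∫ y in box 0 1 n, (F x - F y) := by
    rw [integral_sub (integ _ continuous_const) (integ _ hc), setIntegral_const, hv, one_smul]
  have i4 : Integrable (fun y => ‖F x - F y‖ ^ 2) (volume.restrict (box 0 1 n)) :=
    integ _ (hcx.norm.pow 2)
  rw [e1, ← ofReal_integral_eq_lintegral_ofReal i4
    (Eventually.of_forall fun y => sq_nonneg _)]
  apply ENNReal.ofReal_le_ofReal
  refine le_trans ?_ (jens (fun y => ‖F x - F y‖) hcx.norm)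
  exact pow_le_pow_left₀ (norm_nonneg _) (norm_integral_le_integral_norm _) 2

theorem poin : S_POIN := by
  intro n
  refine ⟨(n * 3 : ℝ) * 2 ^ (Module.finrank ℝ (Cfg n)) + 1, by positivity, fun F hF => ⟨?_, ?_⟩⟩
  · set c := ∫ y in box 0 1 n, F y with hc
    have hcF : Continuous F := hF.continuous
    have hcont : Continuous fun x => ‖F x - c‖ ^ 2 := ((hcF.sub continuous_const).norm).pow 2
    have h1 : ENNReal.ofReal (∫ x in box 0 1 n, ‖F x - c‖ ^ 2) ≤
        ENNReal.ofReal ((n * 3 : ℝ) * (2 ^ (Module.finrank ℝ (Cfg n)) *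
          ∫ x in box 0 1 n, kin F x)) := by
      rw [ENNReal.ofReal_mul (p := (n * 3 : ℝ)) (by positivity),
        ENNReal.ofReal_mul (p := 2 ^ (Module.finrank ℝ (Cfg n))) (by positivity),
        ofReal_integral_eq_lintegral_ofReal (integ _ hcont)
          (Eventually.of_forall fun y => sq_nonneg _),
        ofReal_integral_eq_lintegral_ofReal (integ _ (kin_cont F hF))
          (Eventually.of_forall fun y => kin_nonneg F y)]
      refine le_trans ?_ (double n F hF)
      apply lintegral_mono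
      intro x
      exact point n F hF x
    have hk : 0 ≤ ∫ x in box 0 1 n, kin F x := integral_nonneg fun x => kin_nonneg F x
    rw [ENNReal.ofReal_le_ofReal_iff (by positivity)] at h1
    refine h1.trans ?_
    nlinarith
  · set c := ∫ y in box 0 1 n, F y with hc
    have hcF : Continuous F := hF.continuous
    have hv : (volume : Measure (Cfg n)).real (box 0 1 n) = 1 := by
      unfold Measure.real
      rw [vol_box]
      simp
    have e : ∀ x, ‖F x‖ ^ 2 = ‖F x - c‖ ^ 2 + (2 * ((starRingEnd ℂ) c * F x).re - ‖c‖ ^ 2) := by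
      intro x
      rw [← Complex.normSq_eq_norm_sq, ← Complex.normSq_eq_norm_sq, ← Complex.normSq_eq_norm_sq,
        Complex.normSq_apply, Complex.normSq_apply, Complex.normSq_apply]
      simp only [Complex.sub_re, Complex.sub_im, Complex.mul_re, Complex.conj_re, Complex.conj_im]
      ring
    have hcm : Continuous fun x => (starRingEnd ℂ) c * F x := continuous_const.mul hcF
    have i1 : Integrable (fun x => ‖F x - c‖ ^ 2) (volume.restrict (box 0 1 n)) :=
      integ _ (((hcF.sub continuous_const).norm).pow 2)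
    have i2 : Integrable (fun x => 2 * ((starRingEnd ℂ) c * F x).re)
        (volume.restrict (box 0 1 n)) :=
      integ _ (continuous_const.mul (Complex.continuous_re.comp hcm))
    have i3 : Integrable (fun _ : Cfg n => ‖c‖ ^ 2) (volume.restrict (box 0 1 n)) :=
      integ _ continuous_const
    have h3 : ∫ x in box 0 1 n, ((starRingEnd ℂ) c * F x).re = ‖c‖ ^ 2 := by
      have h4 : ∫ x in box 0 1 n, ((starRingEnd ℂ) c * F x).re =
          (∫ x in box 0 1 n, (starRingEnd ℂ) c * F x).re := by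
        have := integral_re (𝕜 := ℂ) (integ (fun x => (starRingEnd ℂ) c * F x) hcm)
        exact this
      rw [h4, integral_const_mul, ← hc]
      have h5 : (starRingEnd ℂ) c * c = ((‖c‖ ^ 2 : ℝ) : ℂ) := by
        rw [mul_comm, Complex.mul_conj, Complex.normSq_eq_norm_sq]
      rw [h5, Complex.ofReal_re]
    simp only [e]
    have i23 : Integrable (fun x => 2 * ((starRingEnd ℂ) c * F x).re - ‖c‖ ^ 2)
        (volume.restrict (box 0 1 n)) := i2.sub i3
    rw [integral_add i1 i23, integral_sub i2 i3, integral_const_mul, h3,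
      setIntegral_const, hv]
    simp
    ring

end Pool.Agent.W52.TWB
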