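import Pool.Agent.W734.TWB.Stms

set_option autoImplicit false

noncomputable section

namespace Pool.Agent.W52.TWB.Tr1

open MeasureTheory Set Filter Metric Pool.Agent.W734.TWB

theorem W_int {W : E3 → ℝ} (hW : AdmW W) (g : E3 → ℝ) (hg : Continuous g) :
    Integrable (fun x => W x * g x) := by
  obtain ⟨M, hM⟩ := hW.bdd
  have hK : IsCompact (tsupport W) := hW.supp
  have h1 : IntegrableOn W (tsupport W) := by
    have hf : IsFiniteMeasure (volume.restrict (tsupport W)) :=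
      ⟨by rw [Measure.restrict_apply_univ]; exact hK.measure_lt_top⟩
    refine Integrable.of_bound hW.meas.aestronglyMeasurable M ?_
    filter_upwards with x
    rw [Real.norm_eq_abs, abs_of_nonneg (hW.nonneg x)]
    exact hM x
  have h2 : IntegrableOn (fun x => W x * g x) (tsupport W) :=
    h1.mul_continuousOn hg.continuousOn hK
  refine (integrableOn_iff_integrable_of_support_subset ?_).mp h2
  intro x hx
  apply subset_tsupport
  intro h0
  apply hx
  show W x * g x = 0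
  rw [h0, zero_mul]

theorem g3r_cont {f : E3 → ℝ} (hf : ContDiff ℝ ((⊤ : ℕ∞) : WithTop ℕ∞) f) : Continuous (g3r f) := by
  unfold g3r
  have h1 : Continuous (fderiv ℝ f) := hf.continuous_fderiv (by norm_num)
  exact continuous_finsetSum _ fun k _ => (h1.clm_apply continuous_const).pow 2

theorem g3_cont {f : E3 → ℂ} (hf : ContDiff ℝ ((⊤ : ℕ∞) : WithTop ℕ∞) f) : Continuous (g3 f) := by
  unfold g3
  have h1 : Continuous (fderiv ℝ f) := hf.continuous_fderiv (by norm_num)
  exact continuous_finsetSum _ fun k _ => ((h1.clm_apply continuous_const).norm).pow 2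

/-- if `f = 1` outside a compact set then `|∇f|²` is integrable -/
theorem g3r_int {f : E3 → ℝ} (hf : ContDiff ℝ ((⊤ : ℕ∞) : WithTop ℕ∞) f) (K : Set E3)
    (hK : IsCompact K) (h1 : ∀ x, x ∉ K → f x = 1) : Integrable (g3r f) := by
  apply (g3r_cont hf).integrable_of_hasCompactSupport
  apply HasCompactSupport.of_support_subset_isCompact hK
  intro x hx
  by_contra hxK
  apply hx
  have hev : f =ᶠ[nhds x] fun _ => 1 := by
    filter_upwards [hK.isClosed.isOpen_compl.mem_nhds hxK] with y hy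
    exact h1 y hy
  have h2 : fderiv ℝ f x = 0 := by
    rw [hev.fderiv_eq]
    simp
  unfold g3r
  rw [h2]
  simp

theorem g3_int {f : E3 → ℂ} (hf : ContDiff ℝ ((⊤ : ℕ∞) : WithTop ℕ∞) f)
    (hs : HasCompactSupport f) : Integrable (g3 f) := by
  apply (g3_cont hf).integrable_of_hasCompactSupport
  apply HasCompactSupport.of_support_subset_isCompact hs
  intro x hx
  by_contra hxK
  apply hx
  have hev : f =ᶠ[nhds x] fun _ => 0 := by
    filter_upwards [(isClosed_tsupport f).isOpen_compl.mem_nhds hxK] with y hy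
    exact image_eq_zero_of_notMem_tsupport hy
  have h2 : fderiv ℝ f x = 0 := by
    rw [hev.fderiv_eq]
    simp
  unfold g3
  rw [h2]
  simp

theorem tr1 (hclamp : S_CLAMP) : S_TR1 := by
  intro W hW δ hδ
  -- a good φ
  have hne : {B : ℝ | ∃ φ : E3 → ℂ, ContDiff ℝ ((⊤ : ℕ∞) : WithTop ℕ∞) φ ∧ HasCompactSupport φ ∧
      B = ∫ y, (2 * g3 φ y + W y * ‖1 - φ y‖ ^ 2)}.Nonempty :=
    ⟨_, fun _ => 0, contDiff_const, HasCompactSupport.zero, rfl⟩
  obtain ⟨B, ⟨φ, hφ, hφs, hB⟩, hlt⟩ := exists_lt_of_csInf_lt hne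
    (show sInf {B : ℝ | ∃ φ : E3 → ℂ, ContDiff ℝ ((⊤ : ℕ∞) : WithTop ℕ∞) φ ∧
      HasCompactSupport φ ∧ B = ∫ y, (2 * g3 φ y + W y * ‖1 - φ y‖ ^ 2)} < b1 W + δ / 4 by
      show b1 W < b1 W + δ / 4
      linarith)
  have hφc : Continuous φ := hφ.continuous
  have hg3nn : ∀ x, 0 ≤ g3 φ x := fun x => by unfold g3; positivity
  have hint0 : Integrable (fun y => 2 * g3 φ y + W y * ‖1 - φ y‖ ^ 2) :=
    ((g3_int hφ hφs).const_mul 2).add
      (W_int hW (fun y => ‖1 - φ y‖ ^ 2) (((continuous_const.sub hφc).norm).pow 2))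
  have hB0 : 0 ≤ B := by
    rw [hB]
    apply integral_nonneg
    intro x
    have h1 := hg3nn x
    have h2 := hW.nonneg x
    show 0 ≤ 2 * g3 φ x + W x * ‖1 - φ x‖ ^ 2
    positivity
  have hWint : Integrable W := by
    have := W_int hW (fun _ => 1) continuous_const
    simpa using this
  set IW := ∫ x, W x with hIW
  have hIW0 : 0 ≤ IW := integral_nonneg hW.nonneg
  -- the clamp
  set ε : ℝ := min 1 (δ / (2 * (3 * B + IW + 1))) with hε
  have hden : 0 < 2 * (3 * B + IW + 1) := by positivity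
  have hε0 : 0 < ε := lt_min one_pos (by positivity)
  have hε1 : ε ≤ 1 := min_le_left _ _
  have hε2 : ε * (3 * B + IW) ≤ δ / 2 := by
    have h1 : ε ≤ δ / (2 * (3 * B + IW + 1)) := min_le_right _ _
    rw [le_div_iff₀ hden] at h1
    nlinarith
  obtain ⟨T, hT, hT01, hT', hTsq, hT1⟩ := hclamp ε hε0
  set f0 : E3 → ℝ := fun x => 1 - (φ x).re with hf0
  have hf0s : ContDiff ℝ ((⊤ : ℕ∞) : WithTop ℕ∞) f0 :=
    contDiff_const.sub (Complex.reCLM.contDiff.comp hφ)
  set f1 : E3 → ℝ := fun x => T (f0 x) with hf1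
  have hf1s : ContDiff ℝ ((⊤ : ℕ∞) : WithTop ℕ∞) f1 := hT.comp hf0s
  have hf1one : ∀ x, x ∉ tsupport φ → f1 x = 1 := by
    intro x hx
    have h1 : φ x = 0 := image_eq_zero_of_notMem_tsupport hx
    show T (1 - (φ x).re) = 1
    rw [h1]
    simp only [Complex.zero_re, sub_zero]
    exact hT1 1 le_rfl
  -- derivatives
  have hd0 : ∀ x, HasFDerivAt f0 (-(Complex.reCLM.comp (fderiv ℝ φ x))) x := by
    intro x
    have h1 : HasFDerivAt φ (fderiv ℝ φ x) x := (hφ.differentiable (by norm_num) x).hasFDerivAt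
    exact (Complex.reCLM.hasFDerivAt.comp x h1).const_sub 1
  have hd1 : ∀ x, HasFDerivAt f1 (deriv T (f0 x) • (-(Complex.reCLM.comp (fderiv ℝ φ x)))) x := by
    intro x
    have h1 : HasDerivAt T (deriv T (f0 x)) (f0 x) :=
      (hT.differentiable (by norm_num) (f0 x)).hasDerivAt
    exact h1.comp_hasFDerivAt x (hd0 x)
  have hg1 : ∀ x, g3r f1 x ≤ (1 + ε) ^ 2 * g3 φ x := by
    intro x
    unfold g3r g3
    rw [(hd1 x).fderiv, Finset.mul_sum]
    apply Finset.sum_le_sum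
    intro k _
    set v : E3 := EuclideanSpace.single k (1 : ℝ) with hv
    have h1 : (deriv T (f0 x) • (-(Complex.reCLM.comp (fderiv ℝ φ x)))) v =
        -(deriv T (f0 x) * (fderiv ℝ φ x v).re) := by
      simp
    rw [h1, neg_sq, mul_pow]
    apply mul_le_mul
    · rw [← sq_abs]
      exact pow_le_pow_left₀ (abs_nonneg _) (hT' _) 2
    · rw [← sq_abs]
      exact pow_le_pow_left₀ (abs_nonneg _) (Complex.abs_re_le_norm _) 2
    · positivity
    · positivity
  have hsq1 : ∀ x, f1 x ^ 2 ≤ ‖1 - φ x‖ ^ 2 + ε := by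
    intro x
    have h1 := hTsq (f0 x)
    have h2 : f0 x ^ 2 ≤ ‖1 - φ x‖ ^ 2 := by
      have h3 : f0 x = (1 - φ x).re := by
        show 1 - (φ x).re = (1 - φ x).re
        simp
      rw [h3, ← sq_abs]
      exact pow_le_pow_left₀ (abs_nonneg _) (Complex.abs_re_le_norm _) 2
    show T (f0 x) ^ 2 ≤ _
    linarith
  have hg1nn : ∀ x, 0 ≤ g3r f1 x := fun x => by unfold g3r; positivity
  have hint1 : Integrable (fun x => 2 * g3r f1 x + W x * f1 x ^ 2) :=
    ((g3r_int hf1s _ hφs hf1one).const_mul 2).add (W_int hW _ (hf1s.continuous.pow 2))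
  have hmain1 : ∫ x, (2 * g3r f1 x + W x * f1 x ^ 2) ≤ B + δ / 2 := by
    have hstep : ∫ x, (2 * g3r f1 x + W x * f1 x ^ 2) ≤
        ∫ x, ((1 + ε) ^ 2 * (2 * g3 φ x + W x * ‖1 - φ x‖ ^ 2) + ε * W x) := by
      apply integral_mono hint1 ((hint0.const_mul _).add (hWint.const_mul ε))
      intro x
      show 2 * g3r f1 x + W x * f1 x ^ 2 ≤
        (1 + ε) ^ 2 * (2 * g3 φ x + W x * ‖1 - φ x‖ ^ 2) + ε * W x
      have h1 := hg1 x
      have h2 : W x * f1 x ^ 2 ≤ W x * (‖1 - φ x‖ ^ 2 + ε) :=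
        mul_le_mul_of_nonneg_left (hsq1 x) (hW.nonneg x)
      have h3 : 0 ≤ W x * ‖1 - φ x‖ ^ 2 := mul_nonneg (hW.nonneg x) (sq_nonneg _)
      have h4 : 1 ≤ (1 + ε) ^ 2 := by nlinarith
      nlinarith
    refine hstep.trans ?_
    rw [integral_add (hint0.const_mul _) (hWint.const_mul ε), integral_const_mul,
      integral_const_mul, ← hB, ← hIW]
    have h5 : ε * (ε * B) ≤ 1 * (ε * B) :=
      mul_le_mul_of_nonneg_right hε1 (mul_nonneg hε0.le hB0)
    have h6 : (1 + ε) ^ 2 * B + ε * IW = B + 2 * (ε * B) + ε * (ε * B) + ε * IW := by ring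
    have h7 : ε * (3 * B + IW) = 3 * (ε * B) + ε * IW := by ring
    rw [h6]
    rw [h7] at hε2
    linarith
  -- symmetrisation
  set f : E3 → ℝ := fun x => (f1 x + f1 (-x)) / 2 with hf
  have hfs : ContDiff ℝ ((⊤ : ℕ∞) : WithTop ℕ∞) f :=
    (hf1s.add (hf1s.comp contDiff_neg)).div_const 2
  obtain ⟨R0, hR0⟩ := hφs.isBounded.exists_norm_le
  have hone : ∀ x : E3, |R0| + 1 ≤ ‖x‖ → x ∉ tsupport φ := by
    intro x hx hxs
    have h1 := hR0 x hxs
    have h2 := le_abs_self R0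
    linarith
  refine ⟨|R0| + 1, f, by positivity, ⟨hfs, ?_, ?_, ?_, ?_⟩, ?_⟩
  · intro x
    have h1 := (hT01 (f0 x)).1
    have h2 := (hT01 (f0 (-x))).1
    show 0 ≤ (T (f0 x) + T (f0 (-x))) / 2
    linarith
  · intro x
    have h1 := (hT01 (f0 x)).2
    have h2 := (hT01 (f0 (-x))).2
    show (T (f0 x) + T (f0 (-x))) / 2 ≤ 1
    linarith
  · intro x
    show (f1 (-x) + f1 (- -x)) / 2 = (f1 x + f1 (-x)) / 2
    rw [neg_neg]
    ring
  · intro x hx
    show (f1 x + f1 (-x)) / 2 = 1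
    rw [hf1one x (hone x hx), hf1one (-x) (hone (-x) (by rwa [norm_neg]))]
    norm_num
  · have hder : ∀ x v, fderiv ℝ f x v = (fderiv ℝ f1 x v - fderiv ℝ f1 (-x) v) / 2 := by
      intro x v
      have h1 : HasFDerivAt f1 (fderiv ℝ f1 x) x :=
        (hf1s.differentiable (by norm_num) x).hasFDerivAt
      have h2 : HasFDerivAt f1 (fderiv ℝ f1 (-x)) (-x) :=
        (hf1s.differentiable (by norm_num) (-x)).hasFDerivAt
      have h3 : HasFDerivAt (fun y : E3 => -y) (-(ContinuousLinearMap.id ℝ E3)) x :=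
        (hasFDerivAt_id x).neg
      have h4 : HasFDerivAt (fun y => f1 (-y)) ((fderiv ℝ f1 (-x)).comp
          (-(ContinuousLinearMap.id ℝ E3))) x := HasFDerivAt.comp x h2 h3
      have h5 := (h1.add h4).mul_const (2⁻¹ : ℝ)
      have h6 : HasFDerivAt f ((2⁻¹ : ℝ) • (fderiv ℝ f1 x + (fderiv ℝ f1 (-x)).comp
          (-(ContinuousLinearMap.id ℝ E3)))) x := by
        refine h5.congr_of_eventuallyEq ?_
        filter_upwards with y
        show (f1 y + f1 (-y)) / 2 = (f1 y + f1 (-y)) * 2⁻¹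
        rw [div_eq_mul_inv]
      rw [h6.fderiv]
      simp
      ring
    have hpt : ∀ x, 2 * g3r f x + W x * f x ^ 2 ≤
        ((2 * g3r f1 x + W x * f1 x ^ 2) + (2 * g3r f1 (-x) + W (-x) * f1 (-x) ^ 2)) / 2 := by
      intro x
      have h1 : g3r f x ≤ (g3r f1 x + g3r f1 (-x)) / 2 := by
        unfold g3r
        rw [← Finset.sum_add_distrib, Finset.sum_div]
        apply Finset.sum_le_sum
        intro k _
        rw [hder]
        nlinarith [sq_nonneg (fderiv ℝ f1 x (EuclideanSpace.single k (1 : ℝ)) +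
          fderiv ℝ f1 (-x) (EuclideanSpace.single k (1 : ℝ)))]
      have h2 : f x ^ 2 ≤ (f1 x ^ 2 + f1 (-x) ^ 2) / 2 := by
        show ((f1 x + f1 (-x)) / 2) ^ 2 ≤ _
        nlinarith [sq_nonneg (f1 x - f1 (-x))]
      have h3 := mul_le_mul_of_nonneg_left h2 (hW.nonneg x)
      rw [hW.even x]
      linarith
    have hint1' : Integrable (fun x => 2 * g3r f1 (-x) + W (-x) * f1 (-x) ^ 2) := hint1.comp_neg
    have hfone : ∀ x, x ∉ closedBall (0 : E3) (|R0| + 1) → f x = 1 := by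
      intro x hx
      rw [mem_closedBall_zero_iff, not_le] at hx
      show (f1 x + f1 (-x)) / 2 = 1
      rw [hf1one x (hone x hx.le), hf1one (-x) (hone (-x) (by rw [norm_neg]; exact hx.le))]
      norm_num
    have hintf : Integrable (fun x => 2 * g3r f x + W x * f x ^ 2) :=
      ((g3r_int hfs _ (isCompact_closedBall _ _) hfone).const_mul 2).add
        (W_int hW _ (hfs.continuous.pow 2))
    have hle : ∫ x, (2 * g3r f x + W x * f x ^ 2) ≤
        ∫ x, (((2 * g3r f1 x + W x * f1 x ^ 2) + (2 * g3r f1 (-x) + W (-x) * f1 (-x) ^ 2)) / 2) :=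
      integral_mono hintf ((hint1.add hint1').div_const 2) hpt
    have heq : ∫ x, (((2 * g3r f1 x + W x * f1 x ^ 2) +
        (2 * g3r f1 (-x) + W (-x) * f1 (-x) ^ 2)) / 2) = ∫ x, (2 * g3r f1 x + W x * f1 x ^ 2) := by
      rw [integral_div, integral_add hint1 hint1',
        integral_neg_eq_self (fun x => 2 * g3r f1 x + W x * f1 x ^ 2)]
      ring
    rw [heq] at hle
    linarith

end Pool.Agent.W52.TWB.Tr1
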